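import Mathlib
import Pool.Agent.RFO.Pub

/-!
# Freeness of algebras of unitary modular forms under passage to reflection overgroups

The case in which the conjugates of `Γ` have their commutator subgroups in `Γ`.
-/

set_option autoImplicit false

namespace Pool.Agent.Results.MP_06550c_nt.AbelianCore

open Pool.Agent.RFO

/-- Let `L` be a Hermitian lattice of signature `(n, 1)`, `n ≥ 2`, over the ring of integers of
`ℚ(√d)`, and `Γ ≤ Γ₁ ≤ U(L)` subgroups of finite index such that `Γ₁` is generated by `Γ` and by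
reflections. Let `S` be a set of elements of `Γ₁` such that `Γ` and its conjugates `s Γ s⁻¹`,
`s ∈ S`, generate a normal subgroup of `Γ₁`, and `s [Γ, Γ] s⁻¹ ⊆ Γ` for all `s ∈ S`. If the
algebra of modular forms for `Γ` is a polynomial algebra, then so is the one for `Γ₁`. -/
theorem result (n : ℕ) (_hn : 2 ≤ n) (d : ℤ) (hd : d < 0) (_hs : Squarefree d) (H : HForm n)
    (L : AddSubgroup (Vn n)) (hL : Pub.Lat d H L) (Γ Γ₁ : Subgroup (Pub.Au n))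
    (h1 : Γ ≤ Γ₁) (h2 : Γ₁ ≤ Pub.UL H L) (h3 : Γ.relIndex (Pub.UL H L) ≠ 0)
    (h4 : Γ₁ ≤ Pub.RG H Γ Γ₁) (h5 : Pub.Free H Γ) (S : Set (Pub.Au n)) (hS : ∀ s ∈ S, s ∈ Γ₁)
    (h6 : ∀ g ∈ Γ₁, ∀ x ∈ Pub.Cj Γ S, g * x * g⁻¹ ∈ Pub.Cj Γ S)
    (h7 : ∀ s ∈ S, ∀ a ∈ Γ, ∀ b ∈ Γ, s * (a * b * a⁻¹ * b⁻¹) * s⁻¹ ∈ Γ) : Pub.Free H Γ₁ :=
  Pub.abel hd hL h1 h2 h3 h4 h5 S hS h6 h7

end Pool.Agent.Results.MP_06550c_nt.AbelianCore
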