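import Pool.Agent.MFB.All
import Pool.Agent.MFB.UBr

/-!
# The algebra of modular forms for a reflection overgroup is factorial

Let `L` be a Hermitian lattice of signature `(n, 1)` over an imaginary quadratic field, `Γ` a
subgroup of finite index of `U(L)` such that `M_*(Γ)` is free, and `Γ₁ ≥ Γ` a subgroup of `U(L)`
which is generated by `Γ` and by reflections (for instance a reflection subgroup which contains
`Γ`). Then `M_*(Γ₁)` is a factorial domain.
-/

namespace Pool.Agent.Results.MP_06550c_nt.Factorial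

open Pool.Agent.MFB Pool.Agent.MFB.UMF

theorem result : ∀ (n : ℕ) (Λ : HLat n), Λ.NC → ∀ Γ Γ₁ : Subgroup (Gp n), Λ.FinInd Γ →
    Λ.GenBy Γ Γ₁ → Λ.IsFree Γ → Λ.IsFact Γ₁ := by
  intro n Λ _ Γ Γ₁ h1 h2 h3
  have h4 := f_TH1 n (old Λ) (toG Γ) (toG Γ₁) (leU Λ Γ₁ h2.2.1) h2.1 (finInd Λ Γ h1)
    ((isFree_iff Λ Γ).1 h3) (gen Λ Γ Γ₁ h2)
  exact isFact_of Λ Γ₁ h4.1 h4.2.1

end Pool.Agent.Results.MP_06550c_nt.Factorial
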