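import Pool.Agent.MFB.UBr
import Pool.Agent.RFO.X4A

/-!
# Reflection overgroups of index at most four

Let `L` be a Hermitian lattice of signature `(n, 1)` over an imaginary quadratic field, `Γ` a
subgroup of finite index of `U(L)` such that `M_*(Γ)` is free, and `Γ₁ ≥ Γ` a subgroup of `U(L)`
which is generated by `Γ` and by reflections (for instance a reflection subgroup which contains
`Γ`). If `Γ` has index at most `4` in `Γ₁` (it need not be normal), then `M_*(Γ₁)` is free.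
-/

namespace Pool.Agent.Results.MP_06550c_nt.IndexFour

open Pool.Agent.MFB Pool.Agent.MFB.UMF

theorem result : ∀ (n : ℕ) (Λ : HLat n), Λ.NC → ∀ Γ Γ₁ : Subgroup (Gp n), Λ.FinInd Γ →
    Λ.GenBy Γ Γ₁ → (Γ.subgroupOf Γ₁).index ≤ 4 → Λ.IsFree Γ → Λ.IsFree Γ₁ := by
  intro n Λ _ Γ Γ₁ h1 h2 h4 h3
  exact (isFree_iff Λ Γ₁).2 (Pool.Agent.RFO.X4F.main Pool.Agent.RFO.p_X4 n (old Λ) (toG Γ) (toG Γ₁)
    (leU Λ Γ₁ h2.2.1) h2.1 (finInd Λ Γ h1) ((isFree_iff Λ Γ).1 h3) (gen Λ Γ Γ₁ h2) h4)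

end Pool.Agent.Results.MP_06550c_nt.IndexFour
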