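import Pool.Agent.MFB.All
import Pool.Agent.MFB.UBr

/-!
# Freeness passes to reflection overgroups over a normal subgroup with factorial algebra

Let `L` be a Hermitian lattice of signature `(n, 1)` over an imaginary quadratic field, `Γ` a
subgroup of finite index of `U(L)` such that `M_*(Γ)` is free, and `Γ₁ ≥ Γ` a subgroup of `U(L)`
and `Γ₀ ≤ Γ` a subgroup of finite index which is normalized by `Γ₁` such that `Γ₁` is generated by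
`Γ₀` and by reflections. If the algebra `M_*(Γ₀)` is factorial, then `M_*(Γ₁)` is free.
-/

namespace Pool.Agent.Results.MP_06550c_nt.NormalFactorial

open Pool.Agent.MFB Pool.Agent.MFB.UMF

theorem result : ∀ (n : ℕ) (Λ : HLat n), Λ.NC → ∀ Γ Γ₀ Γ₁ : Subgroup (Gp n), Γ₀ ≤ Γ → Γ ≤ Γ₁ →
    Λ.FinInd Γ₀ → Λ.GenBy Γ₀ Γ₁ → HLat.Nrm Γ₀ Γ₁ → Λ.IsFact Γ₀ → Λ.IsFree Γ → Λ.IsFree Γ₁ := by
  intro n Λ _ Γ Γ₀ Γ₁ h1 h2 h3 h4 h5 h6 h7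
  exact (isFree_iff Λ Γ₁).2 (f_THA n (old Λ) (toG Γ) (toG Γ₀) (toG Γ₁) (leU Λ Γ₁ h4.2.1) h2 h1
    (finInd Λ Γ₀ h3) h5.2 ((isFree_iff Λ Γ).1 h7) (ufm_of Λ Γ₀ h6) (gen Λ Γ₀ Γ₁ h4))

end Pool.Agent.Results.MP_06550c_nt.NormalFactorial
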